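import Pool.Agent.H80.PK.KStmts

/-! Row K1I of the board `pkt` (helper42). -/

set_option autoImplicit false

namespace Pool.PK

open Filter Topology

section

variable {A B U : Type} [NormedRing A] [NormedAlgebra ℂ A] [CompleteSpace A]
  [NormedRing B] [NormedAlgebra ℂ B] [CompleteSpace B] [Ring U] [Algebra ℂ U]

theorem k1i_seg (h1 : INVStmt) (ι : U →ₐ[ℂ] A) (φ : A →ₐ[ℂ] B) (hRS : RS ι φ) (b : B) (r : ℝ)
    (hb : Metric.ball b r ⊆ {x : B | IsUnit x}) (x y : U) (hx : φ (ι x) ∈ Metric.ball b r)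
    (hy : φ (ι y) ∈ Metric.ball b r) : UJoined (ι x) (ι y) := by
  apply JoinedIn.of_segment_subset
  rintro z ⟨s, t, hs, ht, hst, rfl⟩
  have e1 : s • ι x + t • ι y = ι ((s : ℂ) • x + (t : ℂ) • y) := by
    rw [map_add, map_smul, map_smul]
    rfl
  have e2 : φ (ι ((s : ℂ) • x + (t : ℂ) • y)) = s • φ (ι x) + t • φ (ι y) := by
    rw [map_add, map_smul, map_smul, map_add, map_smul, map_smul]
    rfl
  show IsUnit (s • ι x + t • ι y)
  rw [e1]
  apply h1 A B U ι φ hRS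
  rw [e2]
  exact hb ((convex_ball b r) hx hy hs ht hst)

end

theorem K1I (h1 : INVStmt) : K1IStmt := by
  intro A B U _ _ _ _ _ _ _ _ ι φ hRS a a' ha ha' hj
  have hoA : IsOpen {x : A | IsUnit x} := Units.isOpen
  have hoB : IsOpen {x : B | IsUnit x} := Units.isOpen
  have hRS' : RS ι φ := hRS
  obtain ⟨hφ, hdA, hdB, -⟩ := hRS
  -- the good units
  set Good : B → Prop := fun b => ∃ r : ℝ, 0 < r ∧ Metric.ball b r ⊆ {x : B | IsUnit x} ∧
    ∀ x : U, φ (ι x) ∈ Metric.ball b r → UJoined a (ι x) with hGood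
  have hnear : ∀ c : A, IsUnit c → ∀ r : ℝ, 0 < r → ∃ x : U, φ (ι x) ∈ Metric.ball (φ c) r ∧
      UJoined c (ι x) := by
    intro c hc r hr
    obtain ⟨ε, hε, hball⟩ := Metric.isOpen_iff.mp hoA c hc
    have hO : IsOpen (Metric.ball c ε ∩ φ ⁻¹' Metric.ball (φ c) r) :=
      Metric.isOpen_ball.inter (Metric.isOpen_ball.preimage hφ)
    obtain ⟨x, hx⟩ := hdA.exists_mem_open hO
      ⟨c, Metric.mem_ball_self hε, Metric.mem_ball_self hr⟩
    refine ⟨x, hx.2, ?_⟩
    apply JoinedIn.of_segment_subset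
    exact ((convex_ball c ε).segment_subset (Metric.mem_ball_self hε) hx.1).trans hball
  -- local constancy
  have hloc : ∀ b : B, IsUnit b → ∃ r : ℝ, 0 < r ∧ ∀ b' ∈ Metric.ball b r, (Good b ↔ Good b') := by
    intro b hb
    obtain ⟨r, hr, hball⟩ := Metric.isOpen_iff.mp hoB b hb
    refine ⟨r, hr, fun b' hb' => ⟨?_, ?_⟩⟩
    · rintro ⟨r0, hr0, h2, h3⟩
      obtain ⟨x, hx⟩ := hdB.exists_mem_open (Metric.isOpen_ball.inter Metric.isOpen_ball)
        ⟨b, Metric.mem_ball_self hr0, Metric.mem_ball_self hr⟩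
      have hax := h3 x hx.1
      obtain ⟨r1, hr1, hsub⟩ := Metric.isOpen_iff.mp Metric.isOpen_ball b' hb'
      refine ⟨r1, hr1, hsub.trans hball, fun y hy => ?_⟩
      exact hax.trans (k1i_seg h1 ι φ hRS' b r hball x y hx.2 (hsub hy))
    · rintro ⟨r0, hr0, h2, h3⟩
      obtain ⟨x, hx⟩ := hdB.exists_mem_open (Metric.isOpen_ball.inter Metric.isOpen_ball)
        ⟨b', Metric.mem_ball_self hr0, hb'⟩
      have hax := h3 x hx.1
      refine ⟨r, hr, hball, fun y hy => ?_⟩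
      exact hax.trans (k1i_seg h1 ι φ hRS' b r hball x y hx.2 hy)
  have hstart : Good (φ a) := by
    obtain ⟨r, hr, hball⟩ := Metric.isOpen_iff.mp hoB (φ a) (ha.map φ)
    obtain ⟨x, hx, hax⟩ := hnear a ha r hr
    exact ⟨r, hr, hball, fun y hy => hax.trans (k1i_seg h1 ι φ hRS' (φ a) r hball x y hx hy)⟩
  obtain ⟨γ, hγ⟩ := hj
  have hclopen : IsClopen {t : unitInterval | Good (γ t)} := by
    rw [isClopen_iff_frontier_eq_empty]
    rw [Set.eq_empty_iff_forall_notMem]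
    intro t ht
    obtain ⟨r, hr, hl⟩ := hloc (γ t) (hγ t)
    have hO : IsOpen (γ ⁻¹' Metric.ball (γ t) r) := Metric.isOpen_ball.preimage γ.continuous
    have htO : t ∈ γ ⁻¹' Metric.ball (γ t) r := Metric.mem_ball_self hr
    rw [frontier_eq_closure_inter_closure] at ht
    obtain ⟨t1, h3, h4⟩ := mem_closure_iff.1 ht.1 _ hO htO
    obtain ⟨t2, h5, h6⟩ := mem_closure_iff.1 ht.2 _ hO htO
    exact h6 ((hl _ h5).1 ((hl _ h3).2 h4))
  have huniv : {t : unitInterval | Good (γ t)} = Set.univ := by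
    refine hclopen.eq_univ ⟨0, ?_⟩
    show Good (γ 0)
    rw [γ.source]
    exact hstart
  have hend : Good (φ a') := by
    have h7 : (1 : unitInterval) ∈ {t : unitInterval | Good (γ t)} := by
      rw [huniv]; trivial
    have h8 : Good (γ 1) := h7
    rw [γ.target] at h8
    exact h8
  obtain ⟨r, hr, -, h9⟩ := hend
  obtain ⟨x, hx, hax⟩ := hnear a' ha' r hr
  exact (h9 x hx).trans hax.symm

end Pool.PK
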